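import Pool.Agent.H95.VG.Targets5
import Pool.Agent.H95.VG.Targets1

/-!
# VG module FVL: local finiteness of the volume of the graph
-/

open MeasureTheory Set Filter Topology
open scoped ENNReal NNReal ContDiff Manifold ComplexConjugate

namespace Pool.Agent.H21.VG

open Pool.Agent.H95.VG

theorem ej_pos (j : ℕ) : 0 < ej j := by unfold ej; positivity

theorem ej_anti {i j : ℕ} (h : i ≤ j) : ej j ≤ ej i := by
  unfold ej
  apply one_div_le_one_div_of_le (by positivity)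
  have : (i : ℝ) ≤ j := by exact_mod_cast h
  linarith

theorem ej_le_one (j : ℕ) : ej j ≤ 1 := by
  have := ej_anti (Nat.zero_le j)
  simpa [ej] using this

theorem ej_inj {i j : ℕ} (h : ej i = ej j) : i = j := by
  unfold ej at h
  have h1 : (i : ℝ) + 1 = (j : ℝ) + 1 := by
    have := congrArg (fun x : ℝ => 1 / x) h
    simpa using this
  have : (i : ℝ) = j := by linarith
  exact_mod_cast this

theorem exists_ej_le {ε : ℝ} (hε : 0 < ε) : ∃ j, ej j ≤ ε := by
  obtain ⟨j, hj⟩ := exists_nat_one_div_lt hε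
  exact ⟨j, hj.le⟩

variable {n : ℕ}

theorem measurable_det_jac (Y : V n → V n) :
    Measurable fun z => ENNReal.ofReal (‖(jac Y z).det‖ ^ 2) := by
  have h : Measurable fun z => (jac Y z).det := by
    simp only [Matrix.det_apply]
    refine Finset.measurable_sum _ fun σ _ => ?_
    refine Measurable.const_smul ?_ _
    refine Finset.measurable_prod _ fun i _ => ?_
    change Measurable fun z => (fderiv ℂ Y z) (ek i) (σ i)
    exact (measurable_pi_apply (σ i)).comp (measurable_fderiv_apply_const ℂ Y (ek i))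
  exact (h.norm.pow_const 2).ennreal_ofReal

/-- smallness of the perturbed projections near `P` -/
theorem norm_YY_lt {P Z : V (n + n)} {l : V (n + n) → V n} {δ ρ ε : ℝ} (hδ : 0 < δ)
    (hρ : ρ ≤ δ / 2) (hl : ‖l Z‖ < δ / 2) (hZ : Z ∈ Metric.ball P ρ) (h0 : 0 ≤ ε) (h1 : ε ≤ 1)
    (Φ : Fin n → Fin n ⊕ Fin n) : ‖YY l P Φ ε Z‖ < δ := by
  rw [pi_norm_lt_iff hδ]
  intro i
  have h2 : ‖Z (finSumFinEquiv (Φ i)) - P (finSumFinEquiv (Φ i))‖ < δ / 2 := by
    rw [Metric.mem_ball, dist_eq_norm] at hZ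
    exact (norm_le_pi_norm (Z - P) _).trans_lt (hZ.trans_le hρ)
  have h3 : ‖l Z i‖ < δ / 2 := (norm_le_pi_norm (l Z) i).trans_lt hl
  have h4 : ‖(ε : ℂ) * (Z (finSumFinEquiv (Φ i)) - P (finSumFinEquiv (Φ i)))‖ ≤
      1 * ‖Z (finSumFinEquiv (Φ i)) - P (finSumFinEquiv (Φ i))‖ := by
    rw [norm_mul]
    gcongr
    rw [Complex.norm_real, Real.norm_eq_abs, abs_of_nonneg h0]
    exact h1
  calc ‖YY l P Φ ε Z i‖ ≤ ‖l Z i‖ + ‖(ε : ℂ) * (Z (finSumFinEquiv (Φ i))
        - P (finSumFinEquiv (Φ i)))‖ := norm_add_le _ _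
    _ < δ / 2 + δ / 2 := by
        rw [one_mul] at h4
        exact add_lt_add h3 (h4.trans_lt h2)
    _ = δ := by ring

theorem fvl (hARE : T_ARE) (hMOP : T_MOP) (hJAC : T_JAC) (hVDM : T_VDM) : T_FVL := by
  intro n X _ _ ι A f I D hn hM a P r m G l hL r' ε₀ δ₁ D₀ hF
  obtain ⟨hr'0, hr'r, hε0, hε1, hδ⟩ := hF.pos
  set F := FF A f a with hFdef
  have hopen := (hMOP n X ι A f I D hM).2.2.1
  -- the radius
  have hPr : P ∈ Metric.ball P r := Metric.mem_ball_self hL.rpos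
  have hlc : ContinuousAt l P :=
    (hL.lhol.differentiableAt (Metric.isOpen_ball.mem_nhds hPr)).continuousAt
  have hev : ∀ᶠ Z in 𝓝 P, ‖l Z‖ < δ₁ / 2 := by
    have h1 : Tendsto (fun Z => ‖l Z‖) (𝓝 P) (𝓝 ‖l P‖) := hlc.norm
    rw [hL.l0, norm_zero] at h1
    exact h1 (Iio_mem_nhds (by linarith))
  obtain ⟨ρ₁, hρ₁, hρl⟩ := Metric.eventually_nhds_iff_ball.1 hev
  refine ⟨min (min ρ₁ (δ₁ / 2)) (r' / 2), by positivity, ?_, ?_⟩
  · exact (min_le_right _ _).trans_lt (by linarith)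
  set ρ := min (min ρ₁ (δ₁ / 2)) (r' / 2) with hρdef
  have hρ1 : ρ ≤ ρ₁ := (min_le_left _ _).trans (min_le_left _ _)
  have hρ2 : ρ ≤ δ₁ / 2 := (min_le_left _ _).trans (min_le_right _ _)
  have hρ3 : ρ ≤ r' := (min_le_right _ _).trans (by linarith)
  have hρr : ρ ≤ r := hρ3.trans hr'r.le
  set O := Ug A f I D a P ρ with hO
  have hOo : IsOpen O := hopen a P ρ
  have hFd : DifferentiableOn ℂ F O :=
    (hM.hol a).mono fun z hz => ⟨hz.1, hz.2.1⟩
  have hFat : ∀ z ∈ O, DifferentiableAt ℂ F z := fun z hz =>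
    hFd.differentiableAt (hOo.mem_nhds hz)
  -- the parameters
  obtain ⟨j0, hj0⟩ := exists_ej_le hε0
  obtain ⟨C, hC0, hC⟩ := hVDM n (fun i : Fin (n + 1) => ej (j0 + i)) (by
    intro i i' h
    have := ej_inj h
    exact Fin.ext (by omega))
  -- the integral of each minor
  have key : ∀ (Φ : Fin n → Fin n ⊕ Fin n) (i : Fin (n + 1)),
      ∫⁻ z in O, ENNReal.ofReal (‖(jac (fun x => YY l P Φ (ej (j0 + i)) (Zf F x)) z).det‖ ^ 2)
        < ⊤ := by
    intro Φ i
    set Y : V n → V n := fun x => YY l P Φ (ej (j0 + i)) (Zf F x) with hY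
    have hYd : DifferentiableOn ℂ Y O := fun z hz =>
      ((hJAC n F z P r l (hFat z hz) hL.lhol
        (Metric.ball_subset_ball hρr hz.2.2) Φ (ej (j0 + i))).1).differentiableWithinAt
    have hej : ej (j0 + i) ≤ ε₀ := (ej_anti (Nat.le_add_right _ _)).trans hj0
    have hYs : ∀ z ∈ O, Y z ∈ Metric.ball (0 : V n) δ₁ := by
      intro z hz
      rw [mem_ball_zero_iff]
      refine norm_YY_lt hδ hρ2 ?_ hz.2.2 (ej_pos _).le (ej_le_one _) Φ
      exact hρl _ (Metric.ball_subset_ball hρ1 hz.2.2)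
    obtain ⟨-, hint, -⟩ := hARE n O O Y (fun _ => 1) hOo hYd hOo.measurableSet Subset.rfl
      measurable_const
    simp only [one_mul] at hint
    rw [hint]
    have hcnt := hF.cnt Φ (j0 + i) hej
    have hbd : ∀ᵐ y : V n, (∑' z : {z // z ∈ O ∧ Y z = y ∧ (jac Y z).det ≠ 0}, (1 : ℝ≥0∞))
        ≤ (Metric.ball (0 : V n) δ₁).indicator (fun _ => (D₀ : ℝ≥0∞)) y := by
      rw [ae_restrict_iff' Metric.isOpen_ball.measurableSet] at hcnt
      filter_upwards [hcnt] with y hy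
      by_cases hyb : y ∈ Metric.ball (0 : V n) δ₁
      · rw [indicator_of_mem hyb]
        have h1 := ENNReal.tsum_set_one {z | z ∈ O ∧ Y z = y ∧ (jac Y z).det ≠ 0}
        have h2 : {z | z ∈ O ∧ Y z = y ∧ (jac Y z).det ≠ 0}.encard ≤ D₀ := by
          refine le_trans (encard_le_encard ?_) (hy hyb)
          rintro z ⟨hz1, hz2, -⟩
          exact ⟨⟨hz1.1, hz1.2.1, Metric.ball_subset_ball hρ3 hz1.2.2⟩, hz2⟩
        calc (∑' z : {z // z ∈ O ∧ Y z = y ∧ (jac Y z).det ≠ 0}, (1 : ℝ≥0∞))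
            = (({z | z ∈ O ∧ Y z = y ∧ (jac Y z).det ≠ 0}.encard : ℕ∞) : ℝ≥0∞) := h1
          _ ≤ ((D₀ : ℕ∞) : ℝ≥0∞) := by exact_mod_cast h2
          _ = (D₀ : ℝ≥0∞) := by simp
      · have : IsEmpty {z // z ∈ O ∧ Y z = y ∧ (jac Y z).det ≠ 0} := by
          refine ⟨?_⟩
          rintro ⟨z, hz1, hz2, -⟩
          exact hyb (hz2 ▸ hYs z hz1)
        simp
    calc ∫⁻ y, ∑' z : {z // z ∈ O ∧ Y z = y ∧ (jac Y z).det ≠ 0}, (1 : ℝ≥0∞)
        ≤ ∫⁻ y, (Metric.ball (0 : V n) δ₁).indicator (fun _ => (D₀ : ℝ≥0∞)) y :=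
          lintegral_mono_ae hbd
      _ = D₀ * volume (Metric.ball (0 : V n) δ₁) := by
          rw [lintegral_indicator Metric.isOpen_ball.measurableSet, setLIntegral_const]
      _ < ⊤ := ENNReal.mul_lt_top (by simp) Metric.isBounded_ball.measure_lt_top
  -- pointwise bound
  have hpt : ∀ z ∈ O, ENNReal.ofReal (Dm F z) ≤ ∑ Φ : Fin n → Fin n ⊕ Fin n,
      ∑ i : Fin (n + 1), ENNReal.ofReal C *
        ENNReal.ofReal (‖(jac (fun x => YY l P Φ (ej (j0 + i)) (Zf F x)) z).det‖ ^ 2) := by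
    intro z hz
    have h1 : Dm F z ≤ ∑ Φ : Fin n → Fin n ⊕ Fin n, ∑ i : Fin (n + 1),
        C * ‖(jac (fun x => YY l P Φ (ej (j0 + i)) (Zf F x)) z).det‖ ^ 2 := by
      unfold Dm
      refine Finset.sum_le_sum fun Φ _ => ?_
      rw [← Finset.mul_sum]
      refine (hC (jac (fun x => l (Zf F x)) z) (jac (mix Φ F) z)).trans_eq ?_
      congr 1
      refine Finset.sum_congr rfl fun i _ => ?_
      rw [(hJAC n F z P r l (hFat z hz) hL.lhol
        (Metric.ball_subset_ball hρr hz.2.2) Φ (ej (j0 + i))).2]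
    refine (ENNReal.ofReal_le_ofReal h1).trans ?_
    rw [ENNReal.ofReal_sum_of_nonneg (fun Φ _ => Finset.sum_nonneg fun i _ => by positivity)]
    refine Finset.sum_le_sum fun Φ _ => ?_
    rw [ENNReal.ofReal_sum_of_nonneg (fun i _ => by positivity)]
    refine Finset.sum_le_sum fun i _ => ?_
    rw [ENNReal.ofReal_mul hC0.le]
  calc ∫⁻ z in O, ENNReal.ofReal (Dm F z)
      ≤ ∫⁻ z in O, ∑ Φ : Fin n → Fin n ⊕ Fin n, ∑ i : Fin (n + 1), ENNReal.ofReal C *
        ENNReal.ofReal (‖(jac (fun x => YY l P Φ (ej (j0 + i)) (Zf F x)) z).det‖ ^ 2) :=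
        setLIntegral_mono' hOo.measurableSet hpt
    _ = ∑ Φ : Fin n → Fin n ⊕ Fin n, ∑ i : Fin (n + 1), ENNReal.ofReal C *
        ∫⁻ z in O, ENNReal.ofReal (‖(jac (fun x => YY l P Φ (ej (j0 + i)) (Zf F x)) z).det‖ ^ 2)
        := by
        rw [lintegral_finsetSum]
        · refine Finset.sum_congr rfl fun Φ _ => ?_
          rw [lintegral_finsetSum]
          · refine Finset.sum_congr rfl fun i _ => ?_
            rw [lintegral_const_mul _ (measurable_det_jac _)]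
          · exact fun i _ => (measurable_det_jac _).const_mul _
        · exact fun Φ _ => Finset.measurable_sum _ fun i _ => (measurable_det_jac _).const_mul _
    _ < ⊤ := by
        refine ENNReal.sum_lt_top.2 fun Φ _ => ENNReal.sum_lt_top.2 fun i _ => ?_
        exact ENNReal.mul_lt_top ENNReal.ofReal_lt_top (key Φ i)

end Pool.Agent.H21.VG
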